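import Pool.Agent.Y755.Lev

set_option autoImplicit false

/-!
MP_f9aece_nt, all orders near the critical line: off a set of small measure, the same for all orders, the moment of
every fixed real order `β > 0` of `ζ(σ + ix + iuT)` is asymptotic to `∑ d_{β/2}(n)² n^{-2σ}`, uniformly for
`1/2 + λ/log T ≤ σ ≤ 9/16` as `λ → ∞`; hence the sharp lower bound for the full moments of every order. At the
distance `δ(T)` from the line the value is `a_{β/2} (2 δ(T))^{-β²/4}`, and the exceptional set can be taken inside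
the set where `|ζ| > δ(T)^{-2}`, with measure `o(δ(T)^4)`; more generally, for every `c ≥ 0` and the orders `β ≤ 4`
and `β ≥ 4 + 4c`, inside the set where `|ζ| > δ(T)^{-2-c}`, with measure `o(δ(T)^{4+4c})`.
-/

open Filter Topology MeasureTheory
open Pool.Agent.Y755 Pool.Agent.H306R2

theorem Pool.Agent.Results.MP_f9aece_nt.AllOrdersOffSet.result :
    (∀ B : ℝ, 0 < B → ∀ ε : ℝ, 0 < ε → ∃ lam : ℝ, 0 < lam ∧ ∀ x : ℝ, ∀ᶠ T : ℝ in atTop, ∀ σ : ℝ,
      1 / 2 + lam / Real.log T ≤ σ → σ ≤ 9 / 16 →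
      ∃ E : Set ℝ, MeasurableSet E ∧ E ⊆ Set.Icc 0 1 ∧ volume E ≤ ENNReal.ofReal ε ∧ ∀ β : ℝ, 0 < β → β ≤ B →
        |(∫ u in Set.Icc (0:ℝ) 1 \ E, ‖riemannZeta (σ + x * Complex.I + (u * T) * Complex.I)‖ ^ β) /
          (∑' n : ℕ, dv (β / 2) n ^ 2 * (n:ℝ) ^ (-(2 * σ))) - 1| ≤ ε ∧
        1 - ε ≤ (∫ u in (0:ℝ)..1, ‖riemannZeta (σ + x * Complex.I + (u * T) * Complex.I)‖ ^ β) /
          (∑' n : ℕ, dv (β / 2) n ^ 2 * (n:ℝ) ^ (-(2 * σ)))) ∧
    (∀ (x : ℝ) (δ : ℝ → ℝ), Tendsto δ atTop (𝓝 0) → Tendsto (fun T : ℝ => δ T * Real.log T) atTop atTop →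
      (∀ β : ℝ, 0 < β → 0 < aF (β / 2) ∧
        ∀ b : ℝ, b < aF (β / 2) → ∀ᶠ T : ℝ in atTop, b < (2 * δ T) ^ (β ^ 2 / 4) * ∫ u in (0:ℝ)..1,
          ‖riemannZeta ((1 / 2 + δ T : ℝ) + x * Complex.I + (u * T) * Complex.I)‖ ^ β) ∧
      ∀ c : ℝ, 0 ≤ c → ∃ E : ℝ → Set ℝ, (∀ T, MeasurableSet (E T) ∧ E T ⊆ Set.Icc 0 1 ∧
        ∀ u ∈ E T, δ T ^ (-(2 + c)) <
          ‖riemannZeta ((1 / 2 + δ T : ℝ) + x * Complex.I + (u * T) * Complex.I)‖) ∧
        Tendsto (fun T => (volume (E T)).toReal / δ T ^ (4 + 4 * c)) atTop (𝓝 0) ∧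
        ∀ β : ℝ, 0 < β → (β ≤ 4 ∨ 4 + 4 * c ≤ β) →
          Tendsto (fun T : ℝ => (2 * δ T) ^ (β ^ 2 / 4) * ∫ u in Set.Icc (0:ℝ) 1 \ E T,
            ‖riemannZeta ((1 / 2 + δ T : ℝ) + x * Complex.I + (u * T) * Complex.I)‖ ^ β)
            atTop (𝓝 (aF (β / 2)))) := by
  constructor
  · intro B hB ε hε
    obtain ⟨M, hM⟩ := exists_nat_ge B
    obtain ⟨lam, h1, hu⟩ := unit_good (M := M + 1) (by omega) hε
    refine ⟨lam, by linarith, fun x => ?_⟩
    filter_upwards [hu x, eventually_gt_atTop 1] with T g1 g3 σ hσ1 hσ2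
    have hL := Real.log_pos g3
    have e1 : 1 / 2 + (σ - 1 / 2) = σ := by ring
    have hm : lam / Real.log T ≤ σ - 1 / 2 := by linarith
    have hδ : 0 < σ - 1 / 2 := lt_of_lt_of_le (div_pos (by linarith) hL) hm
    obtain ⟨E, hE, hE1, hE2, hE3⟩ := g1 (σ - 1 / 2) hm (by linarith)
    have hEf : volume E ≠ ⊤ := ((measure_mono hE1).trans_lt (by simp)).ne
    refine ⟨E, hE, hE1, (ENNReal.le_ofReal_iff_toReal_le hEf hε.le).mpr hE2, fun β hβ hβ2 => ?_⟩
    have e0 : 2 * (β / 2) = β := by ring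
    have hD1 := DD_ge_one (α := β / 2) (by linarith) hδ
    have hDe := Dser_eq (β / 2) (σ - 1 / 2)
    have a1 := hE3 (β / 2) (by linarith) (by push_cast; linarith)
    have a2 := sub_mom (α := β / 2) (by linarith) hδ (by linarith) x T E
    rw [e0, e1] at hDe a1 a2
    rw [← hDe] at a1 hD1
    have hD0 : 0 < Dser β σ := by linarith
    show |(_ : ℝ) / Dser β σ - 1| ≤ ε ∧ 1 - ε ≤ (_ : ℝ) / Dser β σ
    rw [abs_le] at a1
    refine ⟨?_, ?_⟩
    · rw [abs_le]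
      constructor
      · rw [le_sub_iff_add_le, le_div_iff₀ hD0]; linarith
      · rw [sub_le_iff_le_add, div_le_iff₀ hD0]; linarith
    · rw [le_div_iff₀ hD0]; linarith
  · intro x δ h1 h2
    refine ⟨?_, fun c hc => ?_⟩
    · obtain ⟨E, hE, hE1, hE2⟩ := path_all x h1 h2
      intro β hβ
      have h := hE2 (β / 2) (by linarith)
      have e0 : 2 * (β / 2) = β := by ring
      have e2 : (β / 2) ^ 2 = β ^ 2 / 4 := by ring
      rw [e0, e2] at h
      refine ⟨aF_pos (by linarith), fun b hb => ?_⟩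
      filter_upwards [h.eventually (lt_mem_nhds hb), h2.eventually_gt_atTop 0, eventually_gt_atTop 1,
        h1.eventually (gt_mem_nhds (show (0:ℝ) < 1 / 16 by norm_num))] with T g1 g2 g3 g4
      have hδ : 0 < δ T := (pos_iff_pos_of_mul_pos g2).mpr (Real.log_pos g3)
      have a2 := sub_mom (α := β / 2) (by linarith) hδ g4.le x T (E T)
      rw [e0] at a2
      exact g1.trans_le (mul_le_mul_of_nonneg_left a2 (by positivity))
    · obtain ⟨E₀, hE₀⟩ := path_lev x h1 h2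
      obtain ⟨E, hE, hE1, -, hE2⟩ := hE₀ c hc
      refine ⟨E, hE, hE1, fun β hβ hβc => ?_⟩
      have h := hE2 (β / 2) (by linarith) (hβc.imp (fun h => by linarith) fun h => by linarith)
      have e0 : 2 * (β / 2) = β := by ring
      have e2 : (β / 2) ^ 2 = β ^ 2 / 4 := by ring
      rw [e0, e2] at h
      exact h
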