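import Pool.Agent.W181.Mom.App4
import Pool.Agent.W181.Mom.Avg

set_option autoImplicit false

/-!
# Lower bounds for the moments of zeta of every real order `β ≥ 2` over all intervals of polylogarithmic length

Let `a κ` be the arithmetic factor of the moment conjecture, `κ = β / 2`, and `0 < A < 4 / e = 1.4715...`.
There are `c₀ > 0` and `K` such that for every real `β ≥ 2` (rational or not) there is `B > 0` with

`∫_T^{T+U} |ζ(1/2 + it)|^β dt ≥ c a(β/2) A^(β²/4) / Γ(β²/4 + 1) U (log U)^(β²/4)`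

for all large `T` and all `U ≥ (log T)^B`, where `c = c₀` for every `β ≥ 2`, and `c = 1` if `β ≥ K`; the same lower
bound (with `log T` in place of `log U`) holds for the average `a(T)` of the problem, for every shift `x`.

The theorem `uniform_real` of the team library (helper181) is the main ingredient.
-/

open Filter

namespace Pool.Agent.Results.MP_f9aece_nt.EveryRealOrder

/-- The arithmetic factor `a κ = ∏_p (1 - 1/p)^(κ²) ∑_m (Γ(κ+m) / (Γ(κ) m!))² p^(-m)`. -/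
noncomputable def aa (κ : ℝ) : ℝ :=
  ∏' p : Nat.Primes, ((1 - ((p : ℕ) : ℝ)⁻¹) ^ (κ ^ 2) *
    ∑' m : ℕ, (Real.Gamma (κ + m) / (Real.Gamma κ * (m.factorial : ℝ))) ^ 2 * ((p : ℕ) : ℝ)⁻¹ ^ m)

lemma lc_gamma (κ : ℝ) (hκ : 0 < κ) (m : ℕ) :
    Pool.Agent.H306R2.lc κ m = Real.Gamma (κ + m) / (Real.Gamma κ * (m.factorial : ℝ)) := by
  have hG : Real.Gamma κ ≠ 0 := (Real.Gamma_pos_of_pos hκ).ne'
  unfold Pool.Agent.H306R2.lc
  induction m with
  | zero => simp [hG]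
  | succ m ih =>
    rw [Finset.prod_range_succ, ih]
    have h1 : κ + ((m + 1 : ℕ) : ℝ) = (κ + m) + 1 := by push_cast; ring
    have h2 : κ + (m : ℝ) ≠ 0 := by positivity
    rw [h1, Real.Gamma_add_one h2, Nat.factorial_succ]
    have h3 : (m.factorial : ℝ) ≠ 0 := by exact_mod_cast m.factorial_ne_zero
    have h4 : (m : ℝ) + 1 ≠ 0 := by positivity
    push_cast
    field_simp

lemma aF_eq (κ : ℝ) (hκ : 0 < κ) : Pool.Agent.H306R2.aF κ = aa κ := by
  unfold Pool.Agent.H306R2.aF aa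
  refine tprod_congr fun p => ?_
  rw [one_div]
  congr 1
  refine tsum_congr fun m => ?_
  rw [lc_gamma κ hκ]

theorem result (A : ℝ) (hA : 0 < A) (hA4 : A < 4 / Real.exp 1) :
    ∃ c₀ K : ℝ, 0 < c₀ ∧ ∀ β : ℝ, 2 ≤ β → 0 < aa (β / 2) ∧
      ∀ c : ℝ, (c ≤ c₀ ∨ (K ≤ β ∧ c ≤ 1)) →
      (∃ B : ℝ, 0 < B ∧ ∀ᶠ T : ℝ in atTop, ∀ U : ℝ, Real.log T ^ B ≤ U →
        c * aa (β / 2) * A ^ (β ^ 2 / 4) / Real.Gamma (β ^ 2 / 4 + 1) * (U * Real.log U ^ (β ^ 2 / 4)) ≤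
          ∫ t in T..(T + U), ‖riemannZeta (1 / 2 + t * Complex.I)‖ ^ β) ∧
      (∀ x : ℝ, ∀ᶠ T : ℝ in atTop,
        c * aa (β / 2) * A ^ (β ^ 2 / 4) / Real.Gamma (β ^ 2 / 4 + 1) * Real.log T ^ (β ^ 2 / 4) ≤
          ∫ u in (0:ℝ)..1, ‖riemannZeta (1 / 2 + Complex.I * x + Complex.I * u * T)‖ ^ β) := by
  obtain ⟨A', hAA', hA'4⟩ := exists_between hA4
  have hA' : 0 < A' := hA.trans hAA'
  obtain ⟨c0, K, hc0, hK1, h⟩ := Pool.Agent.W181.Mom.uniform_real A' hA' hA'4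
  refine ⟨c0, 2 * K, hc0, fun β hβ => ?_⟩
  have hκ : 1 ≤ β / 2 := by linarith
  have hκ0 : 0 < β / 2 := by linarith
  have haF : 0 < Pool.Agent.H306R2.aF (β / 2) := Pool.Agent.H306R2.aF_pos hκ0
  rw [← aF_eq _ hκ0]
  refine ⟨haF, fun c hc => ?_⟩
  set a := Pool.Agent.H306R2.aF (β / 2) with ha
  have hG : 0 < Real.Gamma (β ^ 2 / 4 + 1) := Real.Gamma_pos_of_pos (by positivity)
  have e0 : (β / 2) ^ 2 = β ^ 2 / 4 := by ring
  have e1 : 2 * (β / 2) = β := by ring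
  -- the constant used in the library theorem
  obtain ⟨c', hc', hcc'⟩ : ∃ c' : ℝ, (c' ≤ c0 ∨ (K ≤ β / 2 ∧ c' ≤ 1)) ∧ 0 < c' ∧ c ≤ c' := by
    rcases hc with hc | ⟨hc1, hc2⟩
    · exact ⟨c0, Or.inl le_rfl, hc0, hc⟩
    · exact ⟨1, Or.inr ⟨by linarith, le_rfl⟩, one_pos, hc2⟩
  obtain ⟨hc'0, hcc'⟩ := hcc'
  obtain ⟨B, hB, h1⟩ := h (β / 2) hκ c' hc'
  rw [e0, e1] at h1
  set q := β ^ 2 / 4 with hq
  have hq0 : 0 < q := by positivity
  have hpow : A ^ q < A' ^ q := Real.rpow_lt_rpow hA.le hAA' hq0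
  have hAq : 0 < A ^ q := Real.rpow_pos_of_pos hA _
  have hlt : c * a * A ^ q / Real.Gamma (q + 1) < a * (c' * (A' ^ q / Real.Gamma (q + 1))) := by
    have e2 : a * (c' * (A' ^ q / Real.Gamma (q + 1))) = c' * a * A' ^ q / Real.Gamma (q + 1) := by ring
    rw [e2]
    apply div_lt_div_of_pos_right _ hG
    calc c * a * A ^ q ≤ c' * a * A ^ q := by gcongr
      _ < c' * a * A' ^ q := by gcongr
  have hpos : 0 < a * (c' * (A' ^ q / Real.Gamma (q + 1))) := by positivity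
  constructor
  · refine ⟨B, hB, ?_⟩
    filter_upwards [h1, Real.tendsto_log_atTop.eventually_gt_atTop 1] with T hT hT1 U hU
    have hU1 : 1 ≤ U := le_trans (Real.one_le_rpow hT1.le hB.le) hU
    have h2 : 0 ≤ U * Real.log U ^ q :=
      mul_nonneg (by linarith) (Real.rpow_nonneg (Real.log_nonneg hU1) _)
    exact (mul_le_mul_of_nonneg_right hlt.le h2).trans (hT U hU)
  · intro x
    exact Pool.Agent.W181.Mom.window_to_avg β q _ _ B (by linarith) hpos hlt h1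
      Pool.Agent.H306R2.zeta_line_continuous x

end Pool.Agent.Results.MP_f9aece_nt.EveryRealOrder
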