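import Pool.Agent.Y755.Fin4

set_option autoImplicit false

/-!
MP_f9aece_nt, the moments near the critical line: for every fixed real `2 < β ≤ 4` the moment of order `β` of
`ζ(σ + ix + iuT)` is asymptotic to `∑ d_{β/2}(n)² n^{-2σ}`, uniformly for `1/2 + λ/log T ≤ σ ≤ 9/16` as `λ → ∞`;
at the distance `δ(T)` from the line it is asymptotic to `a_{β/2} (2 δ(T))^{-β²/4}`.
-/

open Filter Topology
open Pool.Agent.Y755 Pool.Agent.H306R2

theorem Pool.Agent.Results.MP_f9aece_nt.NearLineHigh.result :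
    (∀ β : ℝ, 2 < β → β ≤ 4 → ∀ ε : ℝ, 0 < ε → ∃ lam : ℝ, 0 < lam ∧ ∀ x : ℝ, ∀ᶠ T : ℝ in atTop, ∀ σ : ℝ,
      1 / 2 + lam / Real.log T ≤ σ → σ ≤ 9 / 16 →
      |(∫ u in (0:ℝ)..1, ‖riemannZeta (σ + x * Complex.I + (u * T) * Complex.I)‖ ^ β) /
        (∑' n : ℕ, dv (β / 2) n ^ 2 * (n:ℝ) ^ (-(2 * σ))) - 1| ≤ ε) ∧
    (∀ β : ℝ, 2 < β → β ≤ 4 → 0 < aF (β / 2) ∧ ∀ (x : ℝ) (δ : ℝ → ℝ), Tendsto δ atTop (𝓝 0) →
      Tendsto (fun T : ℝ => δ T * Real.log T) atTop atTop →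
      Tendsto (fun T : ℝ => (2 * δ T) ^ (β ^ 2 / 4) *
        ∫ u in (0:ℝ)..1, ‖riemannZeta ((1 / 2 + δ T : ℝ) + x * Complex.I + (u * T) * Complex.I)‖ ^ β)
        atTop (𝓝 (aF (β / 2)))) := by
  constructor
  · intro β hβ hβ2 ε hε
    obtain ⟨l1, h1, hu⟩ := mom_up4 (α := β / 2) (by linarith) (by linarith) hε
    obtain ⟨l2, h2, hl⟩ := mom_low (α := β / 2) (by linarith) (by linarith) hε
    refine ⟨max l1 l2, lt_of_lt_of_le (by linarith) (le_max_left _ _), fun x => ?_⟩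
    filter_upwards [hu x, hl x, eventually_gt_atTop 1] with T g1 g2 g3 σ hσ1 hσ2
    have hL := Real.log_pos g3
    have e0 : 2 * (β / 2) = β := by ring
    have e1 : 1 / 2 + (σ - 1 / 2) = σ := by ring
    have hm : max l1 l2 / Real.log T ≤ σ - 1 / 2 := by linarith
    have a1 := g1 (σ - 1 / 2) (le_trans (div_le_div_of_nonneg_right (le_max_left _ _) hL.le) hm) (by linarith)
    have a2 := g2 (σ - 1 / 2) (le_trans (div_le_div_of_nonneg_right (le_max_right _ _) hL.le) hm) (by linarith)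
    have hδ : 0 < σ - 1 / 2 := lt_of_lt_of_le (div_pos (lt_of_lt_of_le (by linarith) (le_max_left _ _)) hL) hm
    have hD1 := DD_ge_one (α := β / 2) (by linarith) hδ
    have hDe := Dser_eq (β / 2) (σ - 1 / 2)
    rw [e0, e1] at hDe a1 a2
    rw [← hDe] at a1 a2 hD1
    have hD0 : 0 < Dser β σ := by linarith
    show |mom β σ x T / Dser β σ - 1| ≤ ε
    rw [abs_le]
    constructor
    · rw [le_sub_iff_add_le, le_div_iff₀ hD0]; linarith
    · rw [sub_le_iff_le_add, div_le_iff₀ hD0]; linarith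
  · intro β hβ hβ2
    refine ⟨aF_pos (by linarith), fun x δ h1 h2 => ?_⟩
    have h := mom_path4 (α := β / 2) (by linarith) (by linarith) x h1 h2
    have e0 : 2 * (β / 2) = β := by ring
    have e2 : (β / 2) ^ 2 = β ^ 2 / 4 := by ring
    rw [e0, e2] at h
    exact h
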